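import Mathlib
import Pool.Agent.W926.PS.Stm

set_option autoImplicit false

namespace Pool.Agent.W177.PS

open Finset W926.PS

theorem up : S_RICH → S_NUMU → S_CNT → S_RANK → S_UP := by
  classical
  intro hR hN hC hRk K
  obtain ⟨C, hC1⟩ := hR
  obtain ⟨r, κ, n0, hκ, hn⟩ := hN C K
  refine ⟨n0, fun n hn0 => ?_⟩
  obtain ⟨a, ha, hb⟩ := hn n hn0
  obtain ⟨F, hF, hFc⟩ := hC1 r κ a
  have hcard : Fintype.card (Fin n) ≤ Fintype.card (Om r a) := by
    have h1 : Fintype.card (Om r a) = 2 ^ (r * a) := by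
      simp only [Om, Fintype.card_fun, Fintype.card_bool, Fintype.card_fin]
      rw [← pow_mul, mul_comm]
    rw [h1, Fintype.card_fin]
    exact ha
  obtain ⟨ι⟩ := Function.Embedding.nonempty_of_card_le hcard
  have hex : ∀ key ∈ F, ∃ ρ : Equiv.Perm (Fin n), ∀ x y, ρ x < ρ y ↔ key (ι x) < key (ι y) :=
    fun key hk => hRk n (fun x => key (ι x)) ((hF.inj key hk).comp ι.injective)
  choose! ρ hρ using hex
  refine ⟨F.image ρ, ?_, ?_⟩
  · refine le_trans ?_ hb
    exact Nat.mul_le_mul_left K (Finset.card_image_le.trans hFc)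
  · intro x hx
    have h1 := hC r a κ F hκ hF (fun i => ι (x i)) (ι.injective.comp hx)
    refine h1.trans (le_of_eq ?_)
    unfold np
    rw [Finset.image_image]
    congr 1
    refine Finset.image_congr ?_
    intro key hk
    funext i k
    unfold ipat
    simp only [Function.comp_apply]
    rw [decide_eq_decide]
    rw [← hρ key hk (x i) (x k)]
    exact Fin.lt_def.symm

end Pool.Agent.W177.PS
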